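import Mathlib

/-!
Counting the enumerations of a finite set which respect a relation (helper832).
-/

set_option autoImplicit false

namespace Pool.Agent.Y832.BC

open Finset

variable {α : Type} [DecidableEq α]

/-- The enumerations (as lists of length `n`) of the finite set `s` in which `u` may precede `v`
only if `ok u v`. -/
def Lst (ok : α → α → Bool) : ℕ → Finset α → Finset (List α)
  | 0, s => if s = ∅ then {[]} else ∅
  | n + 1, s => s.biUnion fun x =>
      if (∀ v ∈ s.erase x, ok x v = true) then (Lst ok n (s.erase x)).image (List.cons x) else ∅

lemma mem_Lst (ok : α → α → Bool) (n : ℕ) (s : Finset α) (l : List α) :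
    l ∈ Lst ok n s ↔ l.length = n ∧ l.Nodup ∧ l.toFinset = s ∧
      l.Pairwise (fun u v => ok u v = true) := by
  induction n generalizing s l with
  | zero =>
    simp only [Lst]
    split_ifs with h
    · subst h
      simp only [mem_singleton]
      constructor
      · rintro rfl; simp
      · rintro ⟨h, -⟩; exact List.length_eq_zero_iff.mp h
    · simp only [notMem_empty, false_iff]
      rintro ⟨h1, -, h2, -⟩
      rw [List.length_eq_zero_iff] at h1
      subst h1
      exact h (by simpa using h2.symm)
  | succ n ih =>
    simp only [Lst, mem_biUnion]
    constructor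
    · rintro ⟨x, hx, hl⟩
      split_ifs at hl with h
      · rw [mem_image] at hl
        obtain ⟨t, ht, rfl⟩ := hl
        obtain ⟨h1, h2, h3, h4⟩ := (ih _ _).1 ht
        have hxt : x ∉ t := by
          intro hh
          have : x ∈ t.toFinset := by simpa using hh
          rw [h3] at this
          simp at this
        refine ⟨by simp [h1], List.nodup_cons.2 ⟨hxt, h2⟩, ?_, List.pairwise_cons.2 ⟨?_, h4⟩⟩
        · rw [List.toFinset_cons, h3, insert_erase hx]
        · intro v hv
          apply h
          rw [← h3]
          simpa using hv
      · simp at hl
    · rintro ⟨h1, h2, h3, h4⟩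
      match l, h1, h2, h3, h4 with
      | [], h1, _, _, _ => simp at h1
      | x :: t, h1, h2, h3, h4 =>
        rw [List.nodup_cons] at h2
        rw [List.pairwise_cons] at h4
        rw [List.toFinset_cons] at h3
        have ht : t.toFinset = s.erase x := by
          rw [← h3, erase_insert]
          simpa using h2.1
        refine ⟨x, by rw [← h3]; exact mem_insert_self _ _, ?_⟩
        rw [if_pos]
        · rw [mem_image]
          exact ⟨t, (ih _ _).2 ⟨by simpa using h1, h2.2, ht, h4.2⟩, rfl⟩
        · intro v hv
          rw [← ht] at hv
          exact h4.1 v (by simpa using hv)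

lemma card_Lst_succ (ok : α → α → Bool) (n : ℕ) (s : Finset α) :
    (Lst ok (n + 1) s).card = ∑ x ∈ s,
      if (∀ v ∈ s.erase x, ok x v = true) then (Lst ok n (s.erase x)).card else 0 := by
  simp only [Lst]
  rw [card_biUnion]
  · apply sum_congr rfl
    intro x _
    split_ifs
    · rw [card_image_of_injective _ (List.cons_injective)]
    · simp
  · intro x _ y _ hxy
    rw [Function.onFun, disjoint_left]
    intro l hl hl'
    split_ifs at hl with h1
    · split_ifs at hl' with h2
      · rw [mem_image] at hl hl'
        obtain ⟨t, -, rfl⟩ := hl
        obtain ⟨t', -, h⟩ := hl'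
        exact hxy (List.cons.inj h).1.symm
      · simp at hl'
    · simp at hl

end Pool.Agent.Y832.BC
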