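import Mathlib
import Pool.Agent.Y832.BC.Lst

/-!
Linear extensions as order preserving bijections and as enumerations (helper832).
-/

set_option autoImplicit false
set_option linter.unusedSectionVars false

namespace Pool.Agent.Y832.BC

open Finset

section
variable {α : Type} [DecidableEq α] [Fintype α]

theorem natCard_ext (ok : α → α → Bool) (n : ℕ) :
    Nat.card {f : α ≃ Fin n // ∀ i j : Fin n, i < j → ok (f.symm i) (f.symm j) = true} =
      (Lst ok n univ).card := by
  have h1 : ∀ f : {f : α ≃ Fin n // ∀ i j : Fin n, i < j → ok (f.symm i) (f.symm j) = true},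
      List.ofFn (fun i => f.1.symm i) ∈ Lst ok n univ := by
    rintro ⟨f, hf⟩
    rw [mem_Lst]
    refine ⟨by simp, ?_, ?_, ?_⟩
    · rw [List.nodup_ofFn]
      exact f.symm.injective
    · ext x
      simp only [List.mem_toFinset, mem_univ, iff_true]
      rw [List.mem_ofFn]
      exact ⟨f x, by simp⟩
    · rw [List.pairwise_ofFn]
      intro i j hij
      exact hf i j hij
  let F : {f : α ≃ Fin n // ∀ i j : Fin n, i < j → ok (f.symm i) (f.symm j) = true} →
      {l : List α // l ∈ Lst ok n univ} := fun f => ⟨List.ofFn (fun i => f.1.symm i), h1 f⟩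
  have hF : Function.Bijective F := by
    constructor
    · rintro ⟨f, hf⟩ ⟨g, hg⟩ h
      simp only [F, Subtype.mk.injEq] at h
      have h2 := List.ofFn_injective h
      apply Subtype.ext
      simp only
      have : f.symm = g.symm := Equiv.ext (fun i => congrFun h2 i)
      calc f = f.symm.symm := by simp
        _ = g.symm.symm := by rw [this]
        _ = g := by simp
    · rintro ⟨l, hl⟩
      obtain ⟨h2, h3, h4, h5⟩ := (mem_Lst _ _ _ _).1 hl
      subst h2
      have hinj : Function.Injective (fun i : Fin l.length => l.get i) :=
        List.nodup_iff_injective_get.1 h3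
      have hsurj : Function.Surjective (fun i : Fin l.length => l.get i) := by
        intro x
        have : x ∈ l.toFinset := by rw [h4]; exact mem_univ _
        rw [List.mem_toFinset] at this
        obtain ⟨i, hi⟩ := List.get_of_mem this
        exact ⟨i, hi⟩
      let e := Equiv.ofBijective _ ⟨hinj, hsurj⟩
      refine ⟨⟨e.symm, ?_⟩, ?_⟩
      · intro i j hij
        simp only [Equiv.symm_symm]
        have := List.pairwise_iff_get.1 h5 i j hij
        simpa [e] using this
      · apply Subtype.ext
        simp only [F, Equiv.symm_symm]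
        have : (fun i => e i) = fun i : Fin l.length => l.get i := by
          funext i; simp [e]
        rw [this]
        exact List.ofFn_get l
  rw [Nat.card_congr (Equiv.ofBijective F hF), Nat.card_eq_fintype_card, Fintype.card_coe]

end

section
variable {α : Type} [PartialOrder α] {n : ℕ}

lemma mono_iff (f : α ≃ Fin n) :
    Monotone f ↔ ∀ i j : Fin n, i < j → ¬ (f.symm j ≤ f.symm i) := by
  constructor
  · intro h i j hij hle
    have := h hle
    simp only [Equiv.apply_symm_apply] at this
    exact absurd hij (not_lt.2 this)
  · intro h x y hxy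
    by_contra hc
    rw [not_le] at hc
    have := h (f y) (f x) hc
    simp only [Equiv.symm_apply_apply] at this
    exact this hxy

lemma lt_iff (f : α ≃ Fin n) (x y : α) (hxy : x ≠ y) :
    f x < f y ↔ ∀ i j : Fin n, i < j → ¬ (f.symm i = y ∧ f.symm j = x) := by
  constructor
  · rintro h i j hij ⟨rfl, rfl⟩
    simp only [Equiv.apply_symm_apply] at h
    exact absurd hij (not_lt.2 h.le)
  · intro h
    by_contra hc
    rw [not_lt] at hc
    have h2 : f y < f x := lt_of_le_of_ne hc (fun hh => hxy (f.injective hh).symm)
    exact h (f y) (f x) h2 ⟨by simp, by simp⟩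

variable [DecidableEq α] [Fintype α] [DecidableLE α]

/-- `u` may precede `v`. -/
def ok0 (u v : α) : Bool := decide (¬ v ≤ u)

/-- `u` may precede `v` in an enumeration in which `x` precedes `y`. -/
def ok1 (x y u v : α) : Bool := decide (¬ v ≤ u) && !(decide (u = y) && decide (v = x))

theorem card_linExt : Nat.card {f : α ≃ Fin n // Monotone f} = (Lst (ok0 (α := α)) n univ).card := by
  rw [← natCard_ext]
  apply Nat.card_congr
  apply Equiv.subtypeEquivRight
  intro f
  rw [mono_iff]
  simp [ok0]

theorem card_linExt_lt (x y : α) (hxy : x ≠ y) :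
    Nat.card {f : α ≃ Fin n // Monotone f ∧ f x < f y} = (Lst (ok1 x y) n univ).card := by
  rw [← natCard_ext]
  apply Nat.card_congr
  apply Equiv.subtypeEquivRight
  intro f
  rw [mono_iff, lt_iff f x y hxy, ← forall_and]
  apply forall_congr'
  intro i
  rw [← forall_and]
  apply forall_congr'
  intro j
  rw [← imp_and]
  simp only [ok1, decide_not, Bool.and_eq_true, Bool.not_eq_eq_eq_not, Bool.not_true,
    decide_eq_false_iff_not, Bool.and_eq_false_iff]
  tauto

end

end Pool.Agent.Y832.BC
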