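import Mathlib
import Pool.Agent.Y832.BC.Ext

/-!
Enumerations of the union of two chains and lattice paths (helper832).
-/

set_option autoImplicit false
set_option linter.unusedSectionVars false

namespace Pool.Agent.Y832.BC

open Finset

/-- The union of two chains with `m` and `n` elements. -/
def V (m n : ℕ) : Type := Fin m ⊕ Fin n

instance (m n : ℕ) : DecidableEq (V m n) := inferInstanceAs (DecidableEq (Fin m ⊕ Fin n))
instance (m n : ℕ) : Fintype (V m n) := inferInstanceAs (Fintype (Fin m ⊕ Fin n))

/-- elements of the first chain -/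
def va {m n : ℕ} (a : Fin m) : V m n := Sum.inl a
/-- elements of the second chain -/
def vb {m n : ℕ} (b : Fin n) : V m n := Sum.inr b

/-- the elements which remain when `i` elements of the first and `j` elements of the second chain
have been used -/
def remP {m n : ℕ} (i j : ℕ) : V m n → Bool
  | Sum.inl a => decide (i ≤ a.val)
  | Sum.inr b => decide (j ≤ b.val)

def rem (m n i j : ℕ) : Finset (V m n) := univ.filter (fun v => remP i j v = true)

variable {m n : ℕ}

lemma va_mem (i j : ℕ) (a : Fin m) : (va a : V m n) ∈ rem m n i j ↔ i ≤ a.val := by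
  unfold rem
  rw [mem_filter]
  constructor
  · rintro ⟨-, h⟩
    exact of_decide_eq_true h
  · intro h
    exact ⟨mem_univ _, decide_eq_true h⟩

lemma vb_mem (i j : ℕ) (b : Fin n) : (vb b : V m n) ∈ rem m n i j ↔ j ≤ b.val := by
  unfold rem
  rw [mem_filter]
  constructor
  · rintro ⟨-, h⟩
    exact of_decide_eq_true h
  · intro h
    exact ⟨mem_univ _, decide_eq_true h⟩

lemma V_cases (v : V m n) : (∃ a, v = va a) ∨ ∃ b, v = vb b := by
  rcases v with a | b
  · exact Or.inl ⟨a, rfl⟩
  · exact Or.inr ⟨b, rfl⟩

lemma va_ne_vb (a : Fin m) (b : Fin n) : (va a : V m n) ≠ vb b := by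
  intro h; exact Sum.inl_ne_inr h

lemma va_inj {a a' : Fin m} (h : (va a : V m n) = va a') : a = a' := Sum.inl_injective h
lemma vb_inj {b b' : Fin n} (h : (vb b : V m n) = vb b') : b = b' := Sum.inr_injective h

lemma erase_va (i j : ℕ) (a : Fin m) (ha : a.val = i) :
    (rem m n i j).erase (va a) = rem m n (i + 1) j := by
  ext v
  rcases V_cases v with ⟨a', rfl⟩ | ⟨b, rfl⟩
  · rw [mem_erase, va_mem, va_mem]
    constructor
    · rintro ⟨h1, h2⟩
      have : a'.val ≠ a.val := fun h => h1 (by rw [Fin.ext h])
      omega
    · intro h
      refine ⟨fun hh => ?_, by omega⟩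
      rw [va_inj hh] at h
      omega
  · rw [mem_erase, vb_mem, vb_mem]
    exact ⟨fun h => h.2, fun h => ⟨fun hh => va_ne_vb _ _ hh.symm, h⟩⟩

lemma erase_vb (i j : ℕ) (b : Fin n) (hb : b.val = j) :
    (rem m n i j).erase (vb b) = rem m n i (j + 1) := by
  ext v
  rcases V_cases v with ⟨a', rfl⟩ | ⟨b', rfl⟩
  · rw [mem_erase, va_mem, va_mem]
    exact ⟨fun h => h.2, fun h => ⟨fun hh => va_ne_vb _ _ hh, h⟩⟩
  · rw [mem_erase, vb_mem, vb_mem]
    constructor
    · rintro ⟨h1, h2⟩
      have : b'.val ≠ b.val := fun h => h1 (by rw [Fin.ext h])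
      omega
    · intro h
      refine ⟨fun hh => ?_, by omega⟩
      rw [vb_inj hh] at h
      omega

/-- number of lattice paths; `p` and `q` are the numbers of the remaining elements of the chains -/
def D (CA CB : ℕ → ℕ → Bool) : ℕ → ℕ → ℕ
  | 0, 0 => 1
  | 0, q + 1 => if CB 0 q then D CA CB 0 q else 0
  | p + 1, 0 => if CA p 0 then D CA CB p 0 else 0
  | p + 1, q + 1 => (if CA p (q + 1) then D CA CB p (q + 1) else 0) +
      (if CB (p + 1) q then D CA CB (p + 1) q else 0)

lemma D_eq (CA CB : ℕ → ℕ → Bool) (p q : ℕ) (h : 0 < p + q) :
    D CA CB p q = (if 0 < p ∧ CA (p - 1) q = true then D CA CB (p - 1) q else 0) +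
      (if 0 < q ∧ CB p (q - 1) = true then D CA CB p (q - 1) else 0) := by
  match p, q, h with
  | 0, 0, h => simp at h
  | 0, q + 1, _ => simp [D]
  | p + 1, 0, _ => simp [D]
  | p + 1, q + 1, _ => simp [D]

lemma sum_V (f : V m n → ℕ) : ∑ v, f v = ∑ a, f (va a) + ∑ b, f (vb b) :=
  Fintype.sum_sum_type (fun v : Fin m ⊕ Fin n => f v)

theorem card_Lst_rem (ok : V m n → V m n → Bool) (CA CB : ℕ → ℕ → Bool)
    (haa : ∀ a a' : Fin m, ok (va a) (va a') = decide (a < a'))
    (hbb : ∀ b b' : Fin n, ok (vb b) (vb b') = decide (b < b'))
    (hA : ∀ p q, p < m → q ≤ n → ∀ a : Fin m, a.val = m - 1 - p →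
      (CA p q = true ↔ ∀ b : Fin n, n - q ≤ b.val → ok (va a) (vb b) = true))
    (hB : ∀ p q, p ≤ m → q < n → ∀ b : Fin n, b.val = n - 1 - q →
      (CB p q = true ↔ ∀ a : Fin m, m - p ≤ a.val → ok (vb b) (va a) = true)) :
    ∀ k p q, p + q = k → p ≤ m → q ≤ n →
      (Lst ok k (rem m n (m - p) (n - q))).card = D CA CB p q := by
  intro k
  induction k with
  | zero =>
    intro p q h hp hq
    obtain ⟨rfl, rfl⟩ : p = 0 ∧ q = 0 := by omega
    have : rem m n (m - 0) (n - 0) = ∅ := by
      apply eq_empty_of_forall_notMem
      intro v hv
      rcases V_cases v with ⟨a, rfl⟩ | ⟨b, rfl⟩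
      · rw [va_mem] at hv; have := a.isLt; omega
      · rw [vb_mem] at hv; have := b.isLt; omega
    rw [this]
    simp [Lst, D]
  | succ k ih =>
    intro p q h hp hq
    rw [card_Lst_succ, D_eq _ _ _ _ (by omega)]
    have e1 : ∀ f : V m n → ℕ, ∑ x ∈ rem m n (m - p) (n - q), f x =
        ∑ a : Fin m, (if (m - p) ≤ a.val then f (va a) else 0) +
        ∑ b : Fin n, (if (n - q) ≤ b.val then f (vb b) else 0) := by
      intro f
      unfold rem
      rw [sum_filter, sum_V]
      congr 1
      · apply sum_congr rfl
        intro a _
        simp [remP, va]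
      · apply sum_congr rfl
        intro b _
        simp [remP, vb]
    rw [e1]
    congr 1
    · by_cases hp0 : 0 < p
      · have ha0 : m - 1 - (p - 1) < m := by omega
        rw [sum_eq_single (⟨m - 1 - (p - 1), ha0⟩ : Fin m)]
        · rw [if_pos (by simp only; omega)]
          have e2 : (rem m n (m - p) (n - q)).erase (va ⟨m - 1 - (p - 1), ha0⟩) =
              rem m n (m - (p - 1)) (n - q) := by
            rw [erase_va _ _ _ (by simp only; omega)]
            congr 1
            omega
          rw [e2, ih (p - 1) q (by omega) (by omega) hq]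
          have key : (∀ v ∈ rem m n (m - (p - 1)) (n - q),
              ok (va ⟨m - 1 - (p - 1), ha0⟩) v = true) ↔ (0 < p ∧ CA (p - 1) q = true) := by
            rw [hA (p - 1) q (by omega) hq ⟨m - 1 - (p - 1), ha0⟩ rfl]
            constructor
            · intro hh
              refine ⟨hp0, fun b hb => hh _ ?_⟩
              rw [vb_mem]; exact hb
            · rintro ⟨-, hh⟩ v hv
              rcases V_cases v with ⟨a, rfl⟩ | ⟨b, rfl⟩
              · rw [va_mem] at hv
                rw [haa]
                apply decide_eq_true
                rw [Fin.lt_def]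
                simp only
                omega
              · rw [vb_mem] at hv
                exact hh b hv
          by_cases hc : 0 < p ∧ CA (p - 1) q = true
          · rw [if_pos hc, if_pos (key.2 hc)]
          · rw [if_neg hc, if_neg (fun hh => hc (key.1 hh))]
        · intro a _ ha
          by_cases h1 : m - p ≤ a.val
          · rw [if_pos h1, if_neg]
            intro hh
            have h2 : (va ⟨m - 1 - (p - 1), ha0⟩ : V m n) ∈ (rem m n (m - p) (n - q)).erase (va a) := by
              rw [mem_erase]
              refine ⟨fun e => ha (va_inj e).symm, ?_⟩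
              rw [va_mem]
              simp only
              omega
            have h3 := hh _ h2
            rw [haa] at h3
            have h4 := of_decide_eq_true h3
            rw [Fin.lt_def] at h4
            simp only at h4
            omega
          · rw [if_neg h1]
        · intro hh
          exact absurd (mem_univ _) hh
      · rw [if_neg (by tauto)]
        apply sum_eq_zero
        intro a _
        have := a.isLt
        rw [if_neg (by omega)]
    · by_cases hq0 : 0 < q
      · have hb0 : n - 1 - (q - 1) < n := by omega
        rw [sum_eq_single (⟨n - 1 - (q - 1), hb0⟩ : Fin n)]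
        · rw [if_pos (by simp only; omega)]
          have e2 : (rem m n (m - p) (n - q)).erase (vb ⟨n - 1 - (q - 1), hb0⟩) =
              rem m n (m - p) (n - (q - 1)) := by
            rw [erase_vb _ _ _ (by simp only; omega)]
            congr 1
            omega
          rw [e2, ih p (q - 1) (by omega) hp (by omega)]
          have key : (∀ v ∈ rem m n (m - p) (n - (q - 1)),
              ok (vb ⟨n - 1 - (q - 1), hb0⟩) v = true) ↔ (0 < q ∧ CB p (q - 1) = true) := by
            rw [hB p (q - 1) hp (by omega) ⟨n - 1 - (q - 1), hb0⟩ rfl]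
            constructor
            · intro hh
              refine ⟨hq0, fun a ha => hh _ ?_⟩
              rw [va_mem]; exact ha
            · rintro ⟨-, hh⟩ v hv
              rcases V_cases v with ⟨a, rfl⟩ | ⟨b, rfl⟩
              · rw [va_mem] at hv
                exact hh a hv
              · rw [vb_mem] at hv
                rw [hbb]
                apply decide_eq_true
                rw [Fin.lt_def]
                simp only
                omega
          by_cases hc : 0 < q ∧ CB p (q - 1) = true
          · rw [if_pos hc, if_pos (key.2 hc)]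
          · rw [if_neg hc, if_neg (fun hh => hc (key.1 hh))]
        · intro b _ hb
          by_cases h1 : n - q ≤ b.val
          · rw [if_pos h1, if_neg]
            intro hh
            have h2 : (vb ⟨n - 1 - (q - 1), hb0⟩ : V m n) ∈ (rem m n (m - p) (n - q)).erase (vb b) := by
              rw [mem_erase]
              refine ⟨fun e => hb (vb_inj e).symm, ?_⟩
              rw [vb_mem]
              simp only
              omega
            have h3 := hh _ h2
            rw [hbb] at h3
            have h4 := of_decide_eq_true h3
            rw [Fin.lt_def] at h4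
            simp only at h4
            omega
          · rw [if_neg h1]
        · intro hh
          exact absurd (mem_univ _) hh
      · rw [if_neg (by tauto)]
        apply sum_eq_zero
        intro b _
        have := b.isLt
        rw [if_neg (by omega)]

end Pool.Agent.Y832.BC
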