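import Mathlib
import Pool.Agent.Y832.BC.Width2

/-!
Row by row evaluation of the number of lattice paths (helper832).
-/

set_option autoImplicit false
set_option linter.unusedSectionVars false

namespace Pool.Agent.Y832.BC

/-- one row from the previous one -/
def rowNext (ca cb : ℕ → Bool) : ℕ → ℕ → List ℕ → List ℕ
  | _, _, [] => []
  | q, last, x :: xs =>
    ((if ca q = true then x else 0) + (if cb q = true then last else 0)) ::
      rowNext ca cb (q + 1) ((if ca q = true then x else 0) + (if cb q = true then last else 0)) xs

/-- the rows of the table of the numbers of lattice paths -/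
def row (CA CB : ℕ → ℕ → Bool) (n : ℕ) : ℕ → List ℕ
  | 0 => rowNext (fun q => q == 0) (fun q => CB 0 (q - 1)) 0 0 (List.replicate (n + 1) 1)
  | p + 1 => rowNext (fun q => CA p q) (fun q => CB (p + 1) (q - 1)) 0 0 (row CA CB n p)

lemma rowNext_eq (ca cb : ℕ → Bool) (prev g : ℕ → ℕ)
    (hg : ∀ q, g q = (if ca q = true then prev q else 0) +
      (if cb q = true then (if q = 0 then 0 else g (q - 1)) else 0)) :
    ∀ (len q last : ℕ), last = (if q = 0 then 0 else g (q - 1)) →
      rowNext ca cb q last ((List.range' q len).map prev) = (List.range' q len).map g := by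
  intro len
  induction len with
  | zero => intro q last _; simp [rowNext]
  | succ len ih =>
    intro q last hl
    rw [List.range'_succ, List.map_cons, List.map_cons, rowNext]
    have e : (if ca q = true then prev q else 0) + (if cb q = true then last else 0) = g q := by
      rw [hg q, hl]
    rw [e, ih (q + 1) (g q) (by simp)]

lemma row_eq (CA CB : ℕ → ℕ → Bool) (n p : ℕ) :
    row CA CB n p = (List.range' 0 (n + 1)).map (D CA CB p) := by
  induction p with
  | zero =>
    rw [row]
    have h1 : List.replicate (n + 1) 1 = (List.range' 0 (n + 1)).map (fun _ => 1) := by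
      rw [List.map_const']
      simp
    rw [h1]
    apply rowNext_eq
    · intro q
      rcases Nat.eq_zero_or_pos q with rfl | hq
      · simp [D]
      · obtain ⟨q', rfl⟩ : ∃ q', q = q' + 1 := ⟨q - 1, by omega⟩
        simp [D]
    · simp
  | succ p ih =>
    rw [row, ih]
    apply rowNext_eq
    · intro q
      rcases Nat.eq_zero_or_pos q with rfl | hq
      · simp [D]
      · obtain ⟨q', rfl⟩ : ∃ q', q = q' + 1 := ⟨q - 1, by omega⟩
        simp [D]
    · simp

lemma D_eq_row (CA CB : ℕ → ℕ → Bool) (n p q : ℕ) (hq : q ≤ n) :
    D CA CB p q = (row CA CB n p).getD q 0 := by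
  rw [row_eq, List.getD_eq_getElem?_getD]
  simp [List.getElem?_range', Nat.lt_succ_of_le hq]

end Pool.Agent.Y832.BC
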