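import Mathlib
import Pool.Agent.Y832.BC.Rows

/-!
The poset with 50 elements (helper832): numerical verification.
-/

set_option autoImplicit false
set_option linter.unusedSectionVars false

namespace Pool.Agent.Y832.BC

/-- number of elements of the first chain below the elements of the second chain -/
def Ml : List ℕ := [0, 0, 0, 2, 2, 4, 4, 6, 6, 8, 8, 10, 10, 12, 12, 14, 14, 16, 16, 18, 18, 20, 20,
  22, 22]
/-- number of elements of the second chain below the elements of the first chain -/
def Ll : List ℕ := [0, 1, 2, 3, 4, 4, 6, 6, 8, 9, 10, 10, 12, 13, 13, 15, 16, 17, 17, 19, 19, 21, 22,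
  23, 24]

def MM (j : ℕ) : ℕ := Ml.getD j 0
def LL (i : ℕ) : ℕ := Ll.getD i 0

def CA0 (p q : ℕ) : Bool := decide (LL (24 - p) ≤ 25 - q)
def CB0 (p q : ℕ) : Bool := decide (MM (24 - q) ≤ 25 - p)

/-- element `q0` of the second chain precedes element `p0` of the first chain -/
def CA1 (p0 q0 p q : ℕ) : Bool := CA0 p q && !(decide (24 - p = p0) && decide (25 - q ≤ q0))
/-- element `p0` of the first chain precedes element `q0` of the second chain -/
def CB1 (p0 q0 p q : ℕ) : Bool := CB0 p q && !(decide (24 - q = q0) && decide (25 - p ≤ p0))

/-- number of all linear extensions -/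
def tot : ℕ := (row CA0 CB0 25 25).getD 25 0
/-- number of linear extensions in which `p0` of the first chain precedes `q0` of the second -/
def cab (p0 q0 : ℕ) : ℕ := (row CA0 (CB1 p0 q0) 25 25).getD 25 0
/-- number of linear extensions in which `q0` of the second chain precedes `p0` of the first -/
def cba (p0 q0 : ℕ) : ℕ := (row (CA1 p0 q0) CB0 25 25).getD 25 0

theorem tot_eq : tot = 112223608848 := by decide +kernel

/-- Every pair of incomparable elements is unbalanced. -/
def checkPairs : Bool :=
  (List.range 25).all fun p => (List.range 25).all fun q =>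
    decide (q < LL p) || decide (p < MM q) || decide (cab p q ≤ 39148472052) ||
      decide (cba p q ≤ 39148472052)

theorem checkPairs_eq : checkPairs = true := by decide +kernel

theorem cab_eq : cab 0 0 = 39148472052 := by decide +kernel
theorem cba_eq : cba 0 0 = 73075136796 := by decide +kernel

end Pool.Agent.Y832.BC
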