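import Mathlib

/-!
Balance constants of finite posets (definitions for the statement, helper832).
-/

set_option autoImplicit false

namespace Pool.Agent.Y832.BC

/-- The number of linear extensions of a finite poset with `n` elements, that is, of the order
preserving bijections onto `{0, …, n - 1}`. -/
noncomputable def numExt (α : Type) [Fintype α] [PartialOrder α] : ℕ :=
  Nat.card {f : α ≃ Fin (Fintype.card α) // Monotone f}

/-- The probability that `x` comes before `y` in a uniformly random linear extension. -/
noncomputable def prec {α : Type} [Fintype α] [PartialOrder α] (x y : α) : ℝ :=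
  (Nat.card {f : α ≃ Fin (Fintype.card α) // Monotone f ∧ f x < f y} : ℝ) / (numExt α : ℝ)

/-- The balance constant `δ(P)`: the maximum over all pairs of
`min (P(x before y), P(y before x))`. -/
noncomputable def balance (α : Type) [Fintype α] [PartialOrder α] : ℝ :=
  ⨆ p : α × α, min (prec p.1 p.2) (prec p.2 p.1)

/-- The two building blocks of the class `𝒟`: the one element poset (`false`) and the disjoint union
of a point and a chain with two elements (`true`). -/
def Blk : Bool → Type
  | false => Fin 1
  | true => Fin 1 ⊕ Fin 2

instance instBlk : (b : Bool) → PartialOrder (Blk b)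
  | false => inferInstanceAs (PartialOrder (Fin 1))
  | true => inferInstanceAs (PartialOrder (Fin 1 ⊕ Fin 2))

/-- The class `𝒟` of all direct sums `S_1 ⊕ ⋯ ⊕ S_k`, `k ≥ 1`, of these two posets (all elements of
`S_i` are below all elements of `S_j` if `i < j`). -/
def InD (α : Type) [PartialOrder α] : Prop :=
  ∃ k : ℕ, 0 < k ∧ ∃ S : Fin k → Bool, Nonempty (α ≃o Σₗ i : Fin k, Blk (S i))

end Pool.Agent.Y832.BC
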