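import Mathlib
import Pool.Agent.Y832.BC.Defs
import Pool.Agent.Y832.BC.Data

/-!
The poset with 50 elements (helper832): assembly.
-/

set_option autoImplicit false
set_option linter.unusedSectionVars false

namespace Pool.Agent.Y832.BC

open Finset

/-- The order of the example. -/
def leW : V 25 25 → V 25 25 → Bool
  | Sum.inl a, Sum.inl a' => decide (a ≤ a')
  | Sum.inr b, Sum.inr b' => decide (b ≤ b')
  | Sum.inl a, Sum.inr b => decide (a.val < MM b.val)
  | Sum.inr b, Sum.inl a => decide (b.val < LL a.val)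

lemma MM_mono : ∀ b b' : Fin 25, b ≤ b' → MM b.val ≤ MM b'.val := by decide +kernel
lemma LL_mono : ∀ a a' : Fin 25, a ≤ a' → LL a.val ≤ LL a'.val := by decide +kernel
lemma cross : ∀ a b : Fin 25, b.val < LL a.val → MM b.val ≤ a.val := by decide +kernel
lemma MM_le : ∀ b : Fin 25, MM b.val ≤ 25 := by decide +kernel
lemma LL_le : ∀ a : Fin 25, LL a.val ≤ 25 := by decide +kernel

lemma le_aa (a a' : Fin 25) : leW (va a) (va a') = true ↔ a ≤ a' := by
  show decide (a ≤ a') = true ↔ _
  simp
lemma le_bb (b b' : Fin 25) : leW (vb b) (vb b') = true ↔ b ≤ b' := by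
  show decide (b ≤ b') = true ↔ _
  simp
lemma le_ab (a b : Fin 25) : leW (va a) (vb b) = true ↔ a.val < MM b.val := by
  show decide (a.val < MM b.val) = true ↔ _
  simp
lemma le_ba (a b : Fin 25) : leW (vb b) (va a) = true ↔ b.val < LL a.val := by
  show decide (b.val < LL a.val) = true ↔ _
  simp

instance instW : PartialOrder (V 25 25) where
  le u v := leW u v = true
  le_refl u := by
    rcases V_cases u with ⟨a, rfl⟩ | ⟨b, rfl⟩
    · exact (le_aa a a).2 le_rfl
    · exact (le_bb b b).2 le_rfl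
  le_trans u v w h1 h2 := by
    rcases V_cases u with ⟨a, rfl⟩ | ⟨a, rfl⟩ <;> rcases V_cases v with ⟨b, rfl⟩ | ⟨b, rfl⟩ <;>
      rcases V_cases w with ⟨c, rfl⟩ | ⟨c, rfl⟩
    · rw [le_aa] at *; exact h1.trans h2
    · rw [le_aa] at h1; rw [le_ab] at *
      exact lt_of_le_of_lt (Fin.le_def.1 h1) h2
    · rw [le_ab] at h1; rw [le_ba] at h2; rw [le_aa, Fin.le_def]
      have := cross _ _ h2
      omega
    · rw [le_ab] at *; rw [le_bb] at h2
      exact lt_of_lt_of_le h1 (MM_mono _ _ h2)
    · rw [le_ba] at *; rw [le_aa] at h2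
      exact lt_of_lt_of_le h1 (LL_mono _ _ h2)
    · rw [le_ba] at h1; rw [le_ab] at h2; rw [le_bb]
      by_contra hc
      rw [not_le] at hc
      have h3 := cross _ _ h1
      have h4 := MM_mono _ _ hc.le
      omega
    · rw [le_bb] at h1; rw [le_ba] at *
      exact lt_of_le_of_lt (Fin.le_def.1 h1) h2
    · rw [le_bb] at *; exact h1.trans h2
  le_antisymm u v h1 h2 := by
    rcases V_cases u with ⟨a, rfl⟩ | ⟨a, rfl⟩ <;> rcases V_cases v with ⟨b, rfl⟩ | ⟨b, rfl⟩
    · rw [le_aa] at *; rw [le_antisymm h1 h2]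
    · rw [le_ab] at h1; rw [le_ba] at h2
      have := cross _ _ h2
      omega
    · rw [le_ba] at h1; rw [le_ab] at h2
      have := cross _ _ h1
      omega
    · rw [le_bb] at *; rw [le_antisymm h1 h2]

lemma W_le (u v : V 25 25) : u ≤ v ↔ leW u v = true := Iff.rfl

instance : DecidableLE (V 25 25) := fun u v => decidable_of_iff _ (W_le u v).symm

lemma card_W : Fintype.card (V 25 25) = 50 := by
  show Fintype.card (Fin 25 ⊕ Fin 25) = 50
  simp

lemma rem_univ : rem 25 25 (25 - 25) (25 - 25) = (univ : Finset (V 25 25)) := by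
  ext v
  rcases V_cases v with ⟨a, rfl⟩ | ⟨b, rfl⟩
  · rw [va_mem]; simp
  · rw [vb_mem]; simp

lemma ok0_aa (a a' : Fin 25) : ok0 (va a : V 25 25) (va a') = decide (a < a') := by
  unfold ok0
  rw [decide_eq_decide, W_le, le_aa, not_le]
lemma ok0_bb (b b' : Fin 25) : ok0 (vb b : V 25 25) (vb b') = decide (b < b') := by
  unfold ok0
  rw [decide_eq_decide, W_le, le_bb, not_le]
lemma ok0_ab (a b : Fin 25) : ok0 (va a : V 25 25) (vb b) = true ↔ LL a.val ≤ b.val := by
  unfold ok0
  rw [decide_eq_true_eq, W_le, le_ba, not_lt]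
lemma ok0_ba (a b : Fin 25) : ok0 (vb b : V 25 25) (va a) = true ↔ MM b.val ≤ a.val := by
  unfold ok0
  rw [decide_eq_true_eq, W_le, le_ab, not_lt]

lemma CA0_iff (p q : ℕ) (hp : p < 25) (hq : q ≤ 25) (a : Fin 25) (ha : a.val = 25 - 1 - p) :
    CA0 p q = true ↔ ∀ b : Fin 25, 25 - q ≤ b.val → ok0 (va a : V 25 25) (vb b) = true := by
  unfold CA0
  rw [decide_eq_true_eq]
  have e : 24 - p = a.val := by omega
  rw [e]
  constructor
  · intro h b hb
    rw [ok0_ab]
    omega
  · intro h
    rcases Nat.eq_zero_or_pos q with rfl | hq0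
    · exact LL_le a
    · have := h ⟨25 - q, by omega⟩ le_rfl
      rw [ok0_ab] at this
      exact this

lemma CB0_iff (p q : ℕ) (hp : p ≤ 25) (hq : q < 25) (b : Fin 25) (hb : b.val = 25 - 1 - q) :
    CB0 p q = true ↔ ∀ a : Fin 25, 25 - p ≤ a.val → ok0 (vb b : V 25 25) (va a) = true := by
  unfold CB0
  rw [decide_eq_true_eq]
  have e : 24 - q = b.val := by omega
  rw [e]
  constructor
  · intro h a ha
    rw [ok0_ba]
    omega
  · intro h
    rcases Nat.eq_zero_or_pos p with rfl | hp0
    · exact MM_le b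
    · have := h ⟨25 - p, by omega⟩ le_rfl
      rw [ok0_ba] at this
      exact this

theorem numExt_W : numExt (V 25 25) = 112223608848 := by
  unfold numExt
  rw [card_linExt, card_W, ← rem_univ,
    card_Lst_rem ok0 CA0 CB0 ok0_aa ok0_bb CA0_iff CB0_iff 50 25 25 rfl le_rfl le_rfl,
    D_eq_row _ _ 25 25 25 le_rfl]
  exact tot_eq

lemma ok1_eq (x y u v : V 25 25) :
    ok1 x y u v = (ok0 u v && !(decide (u = y) && decide (v = x))) := rfl

lemma ok1_other (x y u v : V 25 25) (h : ¬ (u = y ∧ v = x)) : ok1 x y u v = ok0 u v := by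
  rw [ok1_eq]
  have : (decide (u = y) && decide (v = x)) = false := by
    rw [Bool.eq_false_iff]
    simpa using h
  rw [this]
  simp

theorem card_ab (a0 b0 : Fin 25) :
    Nat.card {f : V 25 25 ≃ Fin (Fintype.card (V 25 25)) //
      Monotone f ∧ f (va a0) < f (vb b0)} = cab a0.val b0.val := by
  rw [card_linExt_lt _ _ (va_ne_vb _ _), card_W, ← rem_univ,
    card_Lst_rem (ok1 (va a0) (vb b0)) CA0 (CB1 a0.val b0.val) ?_ ?_ ?_ ?_ 50 25 25 rfl le_rfl le_rfl,
    D_eq_row _ _ 25 25 25 le_rfl]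
  · rfl
  · intro a a'
    rw [ok1_other _ _ _ _ (fun h => va_ne_vb _ _ h.1), ok0_aa]
  · intro b b'
    rw [ok1_other _ _ _ _ (fun h => va_ne_vb _ _ h.2.symm), ok0_bb]
  · intro p q hp hq a ha
    rw [CA0_iff p q hp hq a ha]
    apply forall₂_congr
    intro b hb
    rw [ok1_other _ _ _ _ (fun h => va_ne_vb _ _ h.1)]
  · intro p q hp hq b hb
    have h0 := CB0_iff p q hp hq b hb
    unfold CB1
    rw [Bool.and_eq_true, h0]
    have e : 24 - q = b.val := by omega
    rw [e]
    constructor
    · rintro ⟨h1, h2⟩ a ha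
      rw [ok1_eq, Bool.and_eq_true]
      refine ⟨h1 a ha, ?_⟩
      simp only [Bool.not_eq_true', Bool.and_eq_false_iff, decide_eq_false_iff_not] at h2 ⊢
      rcases h2 with h2 | h2
      · left; intro h; exact h2 (by rw [vb_inj h])
      · right; intro h; exact h2 (by rw [← va_inj h]; omega)
    · intro h
      refine ⟨fun a ha => ?_, ?_⟩
      · have := h a ha
        rw [ok1_eq, Bool.and_eq_true] at this
        exact this.1
      · simp only [Bool.not_eq_true', Bool.and_eq_false_iff, decide_eq_false_iff_not]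
        by_contra hc
        push Not at hc
        obtain ⟨h2, h3⟩ := hc
        have := h a0 h3
        rw [ok1_eq, Bool.and_eq_true] at this
        have h5 := this.2
        rw [Fin.ext h2] at h5
        simp at h5

theorem card_ba (a0 b0 : Fin 25) :
    Nat.card {f : V 25 25 ≃ Fin (Fintype.card (V 25 25)) //
      Monotone f ∧ f (vb b0) < f (va a0)} = cba a0.val b0.val := by
  rw [card_linExt_lt _ _ (va_ne_vb _ _).symm, card_W, ← rem_univ,
    card_Lst_rem (ok1 (vb b0) (va a0)) (CA1 a0.val b0.val) CB0 ?_ ?_ ?_ ?_ 50 25 25 rfl le_rfl le_rfl,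
    D_eq_row _ _ 25 25 25 le_rfl]
  · rfl
  · intro a a'
    rw [ok1_other _ _ _ _ (fun h => va_ne_vb _ _ h.2), ok0_aa]
  · intro b b'
    rw [ok1_other _ _ _ _ (fun h => va_ne_vb _ _ h.1.symm), ok0_bb]
  · intro p q hp hq a ha
    have h0 := CA0_iff p q hp hq a ha
    unfold CA1
    rw [Bool.and_eq_true, h0]
    have e : 24 - p = a.val := by omega
    rw [e]
    constructor
    · rintro ⟨h1, h2⟩ b hb
      rw [ok1_eq, Bool.and_eq_true]
      refine ⟨h1 b hb, ?_⟩
      simp only [Bool.not_eq_true', Bool.and_eq_false_iff, decide_eq_false_iff_not] at h2 ⊢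
      rcases h2 with h2 | h2
      · left; intro h; exact h2 (by rw [va_inj h])
      · right; intro h; exact h2 (by rw [← vb_inj h]; omega)
    · intro h
      refine ⟨fun b hb => ?_, ?_⟩
      · have := h b hb
        rw [ok1_eq, Bool.and_eq_true] at this
        exact this.1
      · simp only [Bool.not_eq_true', Bool.and_eq_false_iff, decide_eq_false_iff_not]
        by_contra hc
        push Not at hc
        obtain ⟨h2, h3⟩ := hc
        have := h b0 h3
        rw [ok1_eq, Bool.and_eq_true] at this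
        have h5 := this.2
        rw [Fin.ext h2] at h5
        simp at h5
  · intro p q hp hq b hb
    rw [CB0_iff p q hp hq b hb]
    apply forall₂_congr
    intro a ha
    rw [ok1_other _ _ _ _ (fun h => va_ne_vb _ _ h.1.symm)]

end Pool.Agent.Y832.BC
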