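import Mathlib
import Pool.Agent.Y832.BC.Main

/-!
The poset with 50 elements (helper832): the balance constant.
-/

set_option autoImplicit false
set_option linter.unusedSectionVars false

namespace Pool.Agent.Y832.BC

open Finset

attribute [local irreducible] cab cba LL MM

lemma prec_nonneg {α : Type} [Fintype α] [PartialOrder α] (x y : α) : 0 ≤ prec x y := by
  unfold prec
  positivity

lemma prec_zero {α : Type} [Fintype α] [PartialOrder α] (x y : α) (h : y ≤ x) : prec x y = 0 := by
  unfold prec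
  have : IsEmpty {f : α ≃ Fin (Fintype.card α) // Monotone f ∧ f x < f y} := by
    constructor
    rintro ⟨f, h1, h2⟩
    exact absurd (h1 h) (not_le.2 h2)
  rw [Nat.card_of_isEmpty]
  simp

/-- the balance constant of the example -/
def cst : ℚ := 1087457557 / 3117322468

lemma prec_ab (a b : Fin 25) :
    prec (va a : V 25 25) (vb b) = (cab a.val b.val : ℝ) / 112223608848 := by
  unfold prec
  rw [card_ab, numExt_W]
  norm_num

lemma prec_ba (a b : Fin 25) :
    prec (vb b : V 25 25) (va a) = (cba a.val b.val : ℝ) / 112223608848 := by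
  unfold prec
  rw [card_ba, numExt_W]
  norm_num

lemma pair_check (a b : Fin 25) : b.val < LL a.val ∨ a.val < MM b.val ∨
    cab a.val b.val ≤ 39148472052 ∨ cba a.val b.val ≤ 39148472052 := by
  have h := checkPairs_eq
  unfold checkPairs at h
  rw [List.all_eq_true] at h
  have h1 := h a.val (by rw [List.mem_range]; exact a.isLt)
  rw [List.all_eq_true] at h1
  have h2 := h1 b.val (by rw [List.mem_range]; exact b.isLt)
  rw [Bool.or_eq_true, Bool.or_eq_true, Bool.or_eq_true] at h2
  rcases h2 with ((h2 | h2) | h2) | h2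
  · exact Or.inl (of_decide_eq_true h2)
  · exact Or.inr (Or.inl (of_decide_eq_true h2))
  · exact Or.inr (Or.inr (Or.inl (of_decide_eq_true h2)))
  · exact Or.inr (Or.inr (Or.inr (of_decide_eq_true h2)))

lemma div_le_cst (c : ℕ) (h : c ≤ 39148472052) :
    (c : ℝ) / 112223608848 ≤ 1087457557 / 3117322468 := by
  have : (c : ℝ) ≤ 39148472052 := by exact_mod_cast h
  rw [div_le_div_iff₀ (by norm_num) (by norm_num)]
  nlinarith

lemma min_ab (a b : Fin 25) : min (prec (va a : V 25 25) (vb b)) (prec (vb b : V 25 25) (va a)) ≤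
    1087457557 / 3117322468 := by
  rcases pair_check a b with h | h | h | h
  · have : (vb b : V 25 25) ≤ va a := (le_ba a b).2 h
    rw [prec_zero _ _ this]
    exact (min_le_left _ _).trans (by norm_num)
  · have : (va a : V 25 25) ≤ vb b := (le_ab a b).2 h
    rw [prec_zero (vb b) (va a) this]
    exact (min_le_right _ _).trans (by norm_num)
  · rw [prec_ab]
    exact (min_le_left _ _).trans (div_le_cst _ h)
  · rw [prec_ba]
    exact (min_le_right _ _).trans (div_le_cst _ h)

lemma min_le_of_le {α : Type} [Fintype α] [PartialOrder α] (x y : α) (h : x ≤ y) :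
    min (prec x y) (prec y x) ≤ 1087457557 / 3117322468 := by
  rw [prec_zero y x h]
  exact (min_le_right _ _).trans (by norm_num)

lemma min_le_all (x y : V 25 25) : min (prec x y) (prec y x) ≤ 1087457557 / 3117322468 := by
  rcases V_cases x with ⟨a, rfl⟩ | ⟨b, rfl⟩ <;> rcases V_cases y with ⟨a', rfl⟩ | ⟨b', rfl⟩
  · rcases le_total a a' with h | h
    · exact min_le_of_le _ _ ((le_aa a a').2 h)
    · rw [min_comm]
      exact min_le_of_le _ _ ((le_aa a' a).2 h)
  · exact min_ab a b'
  · rw [min_comm]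
    exact min_ab a' b
  · rcases le_total b b' with h | h
    · exact min_le_of_le _ _ ((le_bb b b').2 h)
    · rw [min_comm]
      exact min_le_of_le _ _ ((le_bb b' b).2 h)

theorem balance_W : balance (V 25 25) = 1087457557 / 3117322468 := by
  unfold balance
  apply le_antisymm
  · have : Nonempty (V 25 25 × V 25 25) := ⟨(va 0, va 0)⟩
    exact ciSup_le (fun p => min_le_all p.1 p.2)
  · have h1 : min (prec (va 0 : V 25 25) (vb 0)) (prec (vb 0 : V 25 25) (va 0)) =
        1087457557 / 3117322468 := by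
      rw [prec_ab, prec_ba]
      have e1 : cab (0 : Fin 25).val (0 : Fin 25).val = 39148472052 := cab_eq
      have e2 : cba (0 : Fin 25).val (0 : Fin 25).val = 73075136796 := cba_eq
      rw [e1, e2]
      norm_num
    rw [← h1]
    exact le_ciSup (f := fun p : V 25 25 × V 25 25 => min (prec p.1 p.2) (prec p.2 p.1))
      (Set.finite_range _).bddAbove (va 0, vb 0)

noncomputable instance fintypeBlk : (b : Bool) → Fintype (Blk b)
  | false => inferInstanceAs (Fintype (Fin 1))
  | true => inferInstanceAs (Fintype (Fin 1 ⊕ Fin 2))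

lemma card_Blk (b : Bool) : Fintype.card (Blk b) ≤ 3 := by
  cases b
  · show Fintype.card (Fin 1) ≤ 3
    simp
  · show Fintype.card (Fin 1 ⊕ Fin 2) ≤ 3
    simp

lemma index_eq {α : Type} [PartialOrder α] {k : ℕ} {S : Fin k → Bool}
    (e : α ≃o Σₗ i : Fin k, Blk (S i)) (x y : α) (h1 : ¬ x ≤ y) (h2 : ¬ y ≤ x) :
    (ofLex (e x)).1 = (ofLex (e y)).1 := by
  rcases lt_trichotomy (ofLex (e x)).1 (ofLex (e y)).1 with h | h | h
  · exfalso
    apply h1
    rw [← e.le_iff_le, Sigma.Lex.le_def]
    exact Or.inl h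
  · exact h
  · exfalso
    apply h2
    rw [← e.le_iff_le, Sigma.Lex.le_def]
    exact Or.inl h

attribute [local semireducible] LL MM

lemma inc_same (i : Fin 25) : ¬ ((va i : V 25 25) ≤ vb i) ∧ ¬ ((vb i : V 25 25) ≤ va i) := by
  rw [W_le, W_le, le_ab, le_ba]
  revert i
  decide +kernel

lemma inc_next (i j : Fin 25) (h : j.val = i.val + 1) :
    ¬ ((va i : V 25 25) ≤ vb j) ∧ ¬ ((vb j : V 25 25) ≤ va i) := by
  rw [W_le, W_le, le_ab, le_ba]
  revert i j
  decide +kernel

theorem not_InD : ¬ InD (V 25 25) := by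
  rintro ⟨k, -, S, ⟨e⟩⟩
  have key : ∀ n : ℕ, ∀ hn : n < 25,
      (ofLex (e (va ⟨n, hn⟩))).1 = (ofLex (e (va 0))).1 ∧
      (ofLex (e (vb ⟨n, hn⟩))).1 = (ofLex (e (va 0))).1 := by
    intro n
    induction n with
    | zero =>
      intro hn
      refine ⟨rfl, ?_⟩
      exact (index_eq e _ _ (inc_same 0).1 (inc_same 0).2).symm
    | succ n ih =>
      intro hn
      have h1 := (ih (by omega)).1
      have h2 : (ofLex (e (vb ⟨n + 1, hn⟩))).1 = (ofLex (e (va 0))).1 := by
        rw [← h1]
        exact (index_eq e _ _ (inc_next ⟨n, by omega⟩ ⟨n + 1, hn⟩ rfl).1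
          (inc_next ⟨n, by omega⟩ ⟨n + 1, hn⟩ rfl).2).symm
      refine ⟨?_, h2⟩
      rw [← h2]
      exact index_eq e _ _ (inc_same _).1 (inc_same _).2
  have all : ∀ v : V 25 25, (ofLex (e v)).1 = (ofLex (e (va 0))).1 := by
    intro v
    rcases V_cases v with ⟨a, rfl⟩ | ⟨b, rfl⟩
    · exact (key a.val a.isLt).1
    · exact (key b.val b.isLt).2
  obtain ⟨i0, hi0⟩ : ∃ i0, (ofLex (e (va 0))).1 = i0 := ⟨_, rfl⟩
  have hs : Function.Surjective (fun t : Blk (S i0) => e.symm (toLex ⟨i0, t⟩)) := by
    intro v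
    have h := all v
    rw [hi0] at h
    obtain ⟨x, hx⟩ : ∃ x, ofLex (e v) = x := ⟨_, rfl⟩
    rw [hx] at h
    obtain ⟨i, t⟩ := x
    simp only at h
    subst h
    refine ⟨t, ?_⟩
    simp only
    rw [← hx]
    simp
  have h1 := Fintype.card_le_of_surjective _ hs
  have h2 := card_Blk (S i0)
  rw [card_W] at h1
  omega

lemma lt_beta : (1087457557 / 3117322468 : ℝ) < (5864893 + 27 * Real.sqrt 57) / 16812976 := by
  have h : (7.5498 : ℝ) < Real.sqrt 57 := by
    apply Real.lt_sqrt_of_sq_lt
    norm_num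
  rw [div_lt_div_iff₀ (by norm_num) (by norm_num)]
  nlinarith

end Pool.Agent.Y832.BC
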